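import Mathlib
import Pool.Agent.R981.MazurDefs
import Pool.Agent.R981.MazurColor

set_option autoImplicit false

namespace Pool.Agent.Results.MP_04172d_lc.HamelInEveryDirection

open Pool.Agent.R981.Mazur

/-- **There is a Mazurkiewicz set that contains the graph of a Hamel function in every
direction.** -/
theorem result : ∃ M : Set (ℝ × ℝ), IsMazurkiewicz M ∧
    ∀ θ : ℝ, ∃ h : ℝ → ℝ, IsHamelFunction h ∧ graph h ⊆ rot θ '' M := by
  obtain ⟨M, hM, h⟩ := exists_mazurkiewicz
  refine ⟨M, hM, fun θ => ?_⟩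
  obtain ⟨f, g, hf, _, hfg⟩ := h θ
  exact ⟨f, hf, by rw [hfg]; exact Set.subset_union_left⟩

end Pool.Agent.Results.MP_04172d_lc.HamelInEveryDirection
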